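import Mathlib
import Pool.Agent.H547R3.Len

set_option autoImplicit false

/-!
Every interval of `H` consecutive integers contains `O(H ^ (12/13))` lengths of cycles of the 3x+1
map on the integers, uniformly in the position of the interval.
-/

namespace Pool.Agent.Results.MP_dee342_nt.IntervalLengths

/-- The map `T_{a,b}` on the integers. -/
def T (a b x : ℤ) : ℤ := if x % 2 = 0 then x / 2 else (a * x + b) / 2

/-- `Z` is a cycle (periodic orbit) of `T_3 = T_{3,1}`. -/
def IsCycle (Z : Finset ℤ) : Prop :=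
  ∃ (x : ℤ) (p : ℕ), 1 ≤ p ∧ (T 3 1)^[p] x = x ∧ Z = (Finset.range p).image fun i => (T 3 1)^[i] x

/-- There is an absolute constant `C` such that any `H` consecutive natural numbers
`a, a + 1, ..., a + H - 1` contain at most `C H ^ (12 / 13)` numbers of elements of cycles of the
3x+1 map `T_3` on the integers. -/
theorem result : ∃ C : ℝ, ∀ a H : ℕ, 1 ≤ H →
    (Set.ncard {p : ℕ | a ≤ p ∧ p < a + H ∧ ∃ Z : Finset ℤ, IsCycle Z ∧ Z.card = p} : ℝ) ≤
      C * (H : ℝ) ^ (12 / 13 : ℝ) := by
  classical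
  obtain ⟨C, -, hC⟩ := Pool.Agent.H547R3.lengths_interval
  refine ⟨C, fun a H hH => ?_⟩
  have hfin : {p : ℕ | a ≤ p ∧ p < a + H ∧ ∃ Z : Finset ℤ, IsCycle Z ∧ Z.card = p}.Finite :=
    (Set.finite_Iio (a + H)).subset (fun p hp => hp.2.1)
  rw [Set.ncard_eq_toFinset_card _ hfin]
  apply hC a H hH
  intro p hp
  rw [Set.Finite.mem_toFinset] at hp
  exact hp

end Pool.Agent.Results.MP_dee342_nt.IntervalLengths
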