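import Mathlib
import Pool.Agent.H547R3.Sub.Tqk2

set_option autoImplicit false

namespace Pool.Agent.Results.MP_dee342_nt.PiecesPerLog

/-- The map `T_{a,b}` on the integers: `(a x + b) / 2` for odd `x`, `x / 2` for even `x`. -/
def T (a b x : ℤ) : ℤ := if x % 2 = 0 then x / 2 else (a * x + b) / 2

/-- The factor `w u, w (u+1), ..., w (v-1)` of the sequence `w` has period `π`. -/
def HasPeriod (w : ℕ → ℤ) (π u v : ℕ) : Prop := ∀ j, u ≤ j → j + π < v → w (j + π) = w j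

/-- The word `w 0, w 1, ..., w (n-1)` is a concatenation of `m` words (cut at `0 = t 0 ≤ t 1 ≤ ... ≤
t m = n`), each of which has some period `π` with `1 ≤ π ≤ ℓ`. -/
def Splits (w : ℕ → ℤ) (ℓ m n : ℕ) : Prop :=
  ∃ t : ℕ → ℕ, t 0 = 0 ∧ t m = n ∧ (∀ i < m, t i ≤ t (i + 1)) ∧
    ∀ i < m, ∃ π, 1 ≤ π ∧ π ≤ ℓ ∧ HasPeriod w π (t i) (t (i + 1))

open Pool.Agent.H547R3.Sub in
lemma T_eq (a b : ℤ) : T a b = Tm a b := by
  funext x; simp [T, Tm]

open Pool.Agent.H547R3.Sub in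
lemma dec_of_splits {a b x : ℤ} {ℓ m n : ℕ} (h : Splits (fun i => (T a b)^[i] x % 2) ℓ m n) :
    Dec (par a b x) ℓ m 0 n := by
  obtain ⟨t, h0, hm, hmono, hper⟩ := h
  refine ⟨t, h0, hm, hmono, fun i hi => ?_⟩
  obtain ⟨π, h1, h2, h3⟩ := hper i hi
  refine ⟨π, h1, h2, fun j hj1 hj2 => ?_⟩
  have h4 := h3 j hj1 hj2
  simp only [T_eq] at h4
  exact par_int _ _ _ _ _ h4

open Pool.Agent.H547R3.Sub in
/-- Let `a` be an odd prime and `b` odd. For every `C > 0` there is `A` such that: if an integer `x`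
is periodic under `T_{a,b}` with least period `p`, and its parity word over the period is a
concatenation of `m` words each having a period at most `ℓ`, then
`m ≥ C log (p / (ℓ + (1 + log p) ^ 2)) - A`. -/
theorem result (a : ℕ) (ha : a.Prime) (ha2 : a ≠ 2) (b : ℤ) (hb : b % 2 = 1) (C : ℝ)
    (hC : 0 < C) :
    ∃ A : ℝ, ∀ (x : ℤ) (p m ℓ : ℕ), 1 ≤ p → (T a b)^[p] x = x →
      (∀ j, 1 ≤ j → j < p → (T a b)^[j] x ≠ x) →
      Splits (fun i => (T a b)^[i] x % 2) ℓ m p →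
      C * Real.log (p / (ℓ + (1 + Real.log p) ^ 2)) ≤ m + A := by
  obtain ⟨A, hA, h⟩ := cycleT2 (q := a) ha ha2 C hC
  have hb1 : (1 : ℝ) ≤ |(b : ℝ)| := by
    have h1 : b ≠ 0 := by rintro rfl; simp at hb
    have h2 : 1 ≤ |b| := Int.one_le_abs h1
    exact_mod_cast h2
  have hlogb : 0 ≤ Real.log |(b : ℝ)| := Real.log_nonneg hb1
  refine ⟨C * Real.log (A * (1 + Real.log |(b : ℝ)|)), fun x p m ℓ hp hper hprim hS => ?_⟩
  have hD := dec_of_splits hS
  rw [T_eq] at hper hprim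
  have h1 := h b hb x p m ℓ hp hper hprim hD
  have hpR : (1 : ℝ) ≤ p := by exact_mod_cast hp
  have hlogp : 0 ≤ Real.log p := Real.log_nonneg hpR
  have hℓ0 : (0 : ℝ) ≤ ℓ := Nat.cast_nonneg _
  have hsq : (1 : ℝ) ≤ (1 + Real.log p) ^ 2 := by nlinarith
  have hS0 : (0 : ℝ) < ℓ + (1 + Real.log p) ^ 2 := by positivity
  have h5 : ℓ + Real.log |(b : ℝ)| + (1 + Real.log p) ^ 2 ≤
      (1 + Real.log |(b : ℝ)|) * (ℓ + (1 + Real.log p) ^ 2) := by
    have h6 : Real.log |(b : ℝ)| * 1 ≤ Real.log |(b : ℝ)| * (ℓ + (1 + Real.log p) ^ 2) :=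
      mul_le_mul_of_nonneg_left (by linarith) hlogb
    rw [add_mul, one_mul]
    linarith
  have h7 : (p : ℝ) ≤ A * ((1 + Real.log |(b : ℝ)|) * (ℓ + (1 + Real.log p) ^ 2)) *
      Real.exp (m / C) :=
    h1.trans (mul_le_mul_of_nonneg_right (mul_le_mul_of_nonneg_left h5 hA.le) (Real.exp_pos _).le)
  have hA' : 0 < A * (1 + Real.log |(b : ℝ)|) := by positivity
  have h2 : Real.log (p / (ℓ + (1 + Real.log p) ^ 2)) ≤
      Real.log (A * (1 + Real.log |(b : ℝ)|) * Real.exp (m / C)) := by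
    apply Real.log_le_log (by positivity)
    rw [div_le_iff₀ hS0]
    linarith
  rw [Real.log_mul hA'.ne' (Real.exp_pos _).ne', Real.log_exp] at h2
  have h3 := mul_le_mul_of_nonneg_left h2 hC.le
  have h4 : C * (Real.log (A * (1 + Real.log |(b : ℝ)|)) + m / C) =
      m + C * Real.log (A * (1 + Real.log |(b : ℝ)|)) := by field_simp; ring
  linarith

end Pool.Agent.Results.MP_dee342_nt.PiecesPerLog
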