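import Mathlib
import Pool.Agent.H547R3.SepG

set_option autoImplicit false

/-!
Two periodic points of `T_{q,b}` with a common period `N`, whose parity words of length `N` differ
only inside boundedly many blocks of length at most `ε N` with equal numbers of ones, are equal.
-/

namespace Pool.Agent.Results.MP_dee342_nt.SeparatedCycles

/-- The map `T_{a,b}` on the integers. -/
def T (a b x : ℤ) : ℤ := if x % 2 = 0 then x / 2 else (a * x + b) / 2

/-- The number of odd terms among `x, T x, ..., T^(n-1) x`. -/
def odds (a b x : ℤ) (n : ℕ) : ℕ := ((Finset.range n).filter fun j => (T a b)^[j] x % 2 = 1).card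

/-- Let `q` be an odd prime, `b` odd (for instance `T_{3,1} = T_3` and `T_{5,1} = T_5`). For every `s`
there is `ε > 0` such that for all large `N`: let `x`, `y` be integers with `T^N x = x`, `T^N y = y`
and suppose that the parity words of length `N` of `x` and `y` can be cut in the same places
`0 = t 0 ≤ t 1 ≤ ... ≤ t s = N` such that for each `i` the pieces between `t i` and `t (i + 1)` have
the same number of ones, and are equal or of length at most `ε N`. Then `x = y`. -/
theorem result (q : ℕ) (hq : q.Prime) (hq2 : q ≠ 2) (b : ℤ) (hb : b % 2 = 1) (s : ℕ) :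
    ∃ ε : ℝ, 0 < ε ∧ ∃ N0 : ℕ, ∀ N : ℕ, N0 ≤ N →
    ∀ (x y : ℤ) (t : ℕ → ℕ), (T q b)^[N] x = x → (T q b)^[N] y = y →
    t 0 = 0 → t s = N → (∀ i < s, t i ≤ t (i + 1)) →
    (∀ i ≤ s, odds q b x (t i) = odds q b y (t i)) →
    (∀ i < s, (t (i + 1) : ℝ) - t i ≤ ε * N ∨
      ∀ j, t i ≤ j → j < t (i + 1) → (T q b)^[j] x % 2 = (T q b)^[j] y % 2) → x = y := by
  haveI := Fact.mk hq
  exact Pool.Agent.H547R3.SepC.sepRot hq2 b hb s

end Pool.Agent.Results.MP_dee342_nt.SeparatedCycles
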